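import Pool.Agent.Run7.h531.LP.Stm

/-!
# Project LG (helper937), piece NL (helper183): pigeonhole over the three copies
-/

set_option autoImplicit false

namespace Run7.h531.LP

open Pool.Agent.Run7.h531.LP

/-- vertex `a` of copy `c` -/
def emb (c : Fin 3) (a : Fin 10) : Fin 30 := ⟨10 * c.val + a.val, by omega⟩

theorem emb_same : ∀ c : Fin 3, ∀ a b : Fin 10,
    dis (emb c a) (emb c b) = adj a b ∧ (a ≠ b → emb c a ≠ emb c b) := by
  decide +kernel

theorem emb_diff : ∀ c c' : Fin 3, c ≠ c' → ∀ a b : Fin 10,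
    dis (emb c a) (emb c' b) = false ∧ emb c a ≠ emb c' b := by
  decide +kernel

theorem bent_fst {x y r t : ℝ} (hxr : x < r) {z : ℝ × ℝ} (hz : z ∈ bent x y r t) :
    x ≤ z.1 ∧ z.1 ≤ r := by
  rcases hz with hz | hz
  · obtain ⟨a, b, ha, hb, hab, rfl⟩ := hz
    have h1 : (a • ((x, y) : ℝ × ℝ) + b • ((x, t) : ℝ × ℝ)).1 = x := by
      show a * x + b * x = x
      rw [← add_mul, hab, one_mul]
    rw [h1]
    exact ⟨le_refl _, hxr.le⟩
  · obtain ⟨a, b, ha, hb, hab, rfl⟩ := hz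
    have h1 : (a • ((x, y) : ℝ × ℝ) + b • ((r, y) : ℝ × ℝ)).1 = a * x + b * r := rfl
    rw [h1]
    have ha' : a = 1 - b := by linarith
    subst ha'
    constructor
    · nlinarith
    · nlinarith

theorem bent_snd {x y r t : ℝ} {z : ℝ × ℝ} (hz : z ∈ bent x y r t) :
    min y t ≤ z.2 ∧ z.2 ≤ max y t := by
  rcases hz with hz | hz
  · obtain ⟨a, b, ha, hb, hab, rfl⟩ := hz
    have h1 : (a • ((x, y) : ℝ × ℝ) + b • ((x, t) : ℝ × ℝ)).2 = a * y + b * t := rfl
    rw [h1]
    have h2 : min y t ≤ y := min_le_left _ _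
    have h3 : min y t ≤ t := min_le_right _ _
    have h4 : y ≤ max y t := le_max_left _ _
    have h5 : t ≤ max y t := le_max_right _ _
    have ha' : a = 1 - b := by linarith
    constructor
    · have := mul_le_mul_of_nonneg_left h2 ha
      have := mul_le_mul_of_nonneg_left h3 hb
      have h6 : a * min y t + b * min y t = min y t := by rw [← add_mul, hab, one_mul]
      linarith
    · have := mul_le_mul_of_nonneg_left h4 ha
      have := mul_le_mul_of_nonneg_left h5 hb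
      have h6 : a * max y t + b * max y t = max y t := by rw [← add_mul, hab, one_mul]
      linarith
  · obtain ⟨a, b, ha, hb, hab, rfl⟩ := hz
    have h1 : (a • ((x, y) : ℝ × ℝ) + b • ((r, y) : ℝ × ℝ)).2 = y := by
      show a * y + b * y = y
      rw [← add_mul, hab, one_mul]
    rw [h1]
    exact ⟨min_le_left _ _, le_max_left _ _⟩

theorem t_NL : S_ORD → S_NL := by
  intro hORD hL
  obtain ⟨x, y, r, t, h1, h2⟩ := hL
  -- shapes of different copies meet
  have hmeet : ∀ c c' : Fin 3, c ≠ c' → ∀ a b : Fin 10,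
      (bent (x (emb c a)) (y (emb c a)) (r (emb c a)) (t (emb c a)) ∩
        bent (x (emb c' b)) (y (emb c' b)) (r (emb c' b)) (t (emb c' b))).Nonempty := by
    intro c c' hcc a b
    obtain ⟨h3, h4⟩ := emb_diff c c' hcc a b
    exact (h2 _ _ h4).1 ⟨h4, h3⟩
  have hX : ∀ c c' : Fin 3, c ≠ c' → ∀ a b : Fin 10, x (emb c a) ≤ r (emb c' b) := by
    intro c c' hcc a b
    obtain ⟨z, hz1, hz2⟩ := hmeet c c' hcc a b
    exact le_trans (bent_fst (h1 _).1 hz1).1 (bent_fst (h1 _).1 hz2).2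
  have hY : ∀ c c' : Fin 3, c ≠ c' → ∀ a b : Fin 10,
      min (y (emb c a)) (t (emb c a)) ≤ max (y (emb c' b)) (t (emb c' b)) := by
    intro c c' hcc a b
    obtain ⟨z, hz1, hz2⟩ := hmeet c c' hcc a b
    exact le_trans (bent_snd hz1).1 (bent_snd hz2).2
  have hP : ∀ c c' : Fin 3, c ≠ c' → (∃ a b : Fin 10, r (emb c b) < x (emb c a)) →
      (∃ a b : Fin 10, r (emb c' b) < x (emb c' a)) → False := by
    rintro c c' hcc ⟨a, b, hab⟩ ⟨a', b', hab'⟩
    have h3 := hX c' c (Ne.symm hcc) a' b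
    have h4 := hX c c' hcc a b'
    linarith
  have hQ : ∀ c c' : Fin 3, c ≠ c' →
      (∃ a b : Fin 10, max (y (emb c b)) (t (emb c b)) < min (y (emb c a)) (t (emb c a))) →
      (∃ a b : Fin 10, max (y (emb c' b)) (t (emb c' b)) < min (y (emb c' a)) (t (emb c' a))) →
      False := by
    rintro c c' hcc ⟨a, b, hab⟩ ⟨a', b', hab'⟩
    have h3 := hY c' c (Ne.symm hcc) a' b
    have h4 := hY c c' hcc a b'
    linarith
  have hex : ∃ c : Fin 3, (¬ ∃ a b : Fin 10, r (emb c b) < x (emb c a)) ∧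
      ¬ ∃ a b : Fin 10, max (y (emb c b)) (t (emb c b)) < min (y (emb c a)) (t (emb c a)) := by
    by_contra hno
    have h3 : ∀ c : Fin 3, (∃ a b : Fin 10, r (emb c b) < x (emb c a)) ∨
        ∃ a b : Fin 10, max (y (emb c b)) (t (emb c b)) < min (y (emb c a)) (t (emb c a)) := by
      intro c
      by_contra h4
      exact hno ⟨c, fun h5 => h4 (Or.inl h5), fun h5 => h4 (Or.inr h5)⟩
    have h01 : (0 : Fin 3) ≠ 1 := by decide
    have h02 : (0 : Fin 3) ≠ 2 := by decide
    have h12 : (1 : Fin 3) ≠ 2 := by decide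
    rcases h3 0 with a0 | a0 <;> rcases h3 1 with a1 | a1 <;> rcases h3 2 with a2 | a2
    all_goals first
      | exact hP 0 1 h01 a0 a1
      | exact hQ 0 1 h01 a0 a1
      | exact hP 0 2 h02 a0 a2
      | exact hQ 0 2 h02 a0 a2
      | exact hP 1 2 h12 a1 a2
      | exact hQ 1 2 h12 a1 a2
  obtain ⟨c, hc1, hc2⟩ := hex
  refine hORD (fun a => x (emb c a)) (fun a => y (emb c a)) (fun a => r (emb c a))
    (fun a => t (emb c a)) (fun a => h1 _) ?_ ?_ ?_
  · intro a b
    by_contra h3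
    exact hc1 ⟨a, b, not_le.mp h3⟩
  · intro a b
    by_contra h3
    exact hc2 ⟨a, b, not_le.mp h3⟩
  · intro a b hab
    obtain ⟨h3, h4⟩ := emb_same c a b
    rw [← h2 _ _ (h4 hab), ← h3]
    exact ⟨fun h5 => ⟨h4 hab, h5⟩, fun h5 => h5.2⟩

end Run7.h531.LP
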