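import Pool.Agent.Run7.h531.LP.Stm

set_option autoImplicit false

namespace Run7.h531.LP

open Pool.Agent.Run7.h531.LP

/-- orientation determinant of `P, Q, R` -/
def o (P Q R : ℤ × ℤ) : ℤ := (Q.1 - P.1) * (R.2 - P.2) - (Q.2 - P.2) * (R.1 - P.1)

/-- real points -/
def c (P : ℤ × ℤ) : ℝ × ℝ := ((P.1 : ℝ), (P.2 : ℝ))

theorem cross (P Q R S : ℤ × ℤ) (h1 : o P Q R * o P Q S < 0) (h2 : o R S P * o R S Q < 0) :
    (segment ℝ (c P) (c Q) ∩ segment ℝ (c R) (c S)).Nonempty := by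
  obtain ⟨p1, p2⟩ := P
  obtain ⟨q1, q2⟩ := Q
  obtain ⟨r1, r2⟩ := R
  obtain ⟨s1, s2⟩ := S
  simp only [o] at h1 h2
  have h1' : (((q1 : ℝ) - p1) * (r2 - p2) - (q2 - p2) * (r1 - p1)) *
      ((q1 - p1) * (s2 - p2) - (q2 - p2) * (s1 - p1)) < 0 := by exact_mod_cast h1
  have h2' : (((s1 : ℝ) - r1) * (p2 - r2) - (s2 - r2) * (p1 - r1)) *
      ((s1 - r1) * (q2 - r2) - (s2 - r2) * (q1 - r1)) < 0 := by exact_mod_cast h2
  set d1 : ℝ := ((q1 : ℝ) - p1) * (r2 - p2) - (q2 - p2) * (r1 - p1) with hd1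
  set d2 : ℝ := ((q1 : ℝ) - p1) * (s2 - p2) - (q2 - p2) * (s1 - p1) with hd2
  set d3 : ℝ := ((s1 : ℝ) - r1) * (p2 - r2) - (s2 - r2) * (p1 - r1) with hd3
  set d4 : ℝ := ((s1 : ℝ) - r1) * (q2 - r2) - (s2 - r2) * (q1 - r1) with hd4
  have key : ∀ x y : ℝ, x * y < 0 → x - y ≠ 0 ∧ 0 ≤ x / (x - y) ∧ x / (x - y) ≤ 1 := by
    intro x y hxy
    rcases mul_neg_iff.1 hxy with ⟨hx, hy⟩ | ⟨hx, hy⟩
    · have h : 0 < x - y := by linarith
      exact ⟨h.ne', div_nonneg hx.le h.le, (div_le_one h).2 (by linarith)⟩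
    · have h : x - y < 0 := by linarith
      exact ⟨h.ne, div_nonneg_of_nonpos hx.le h.le, (div_le_one_of_neg h).2 (by linarith)⟩
  obtain ⟨hs0, hs1, hs2⟩ := key d1 d2 h1'
  obtain ⟨ht0, ht1, ht2⟩ := key d3 d4 h2'
  have hD : d3 - d4 = -(d1 - d2) := by
    rw [hd1, hd2, hd3, hd4]
    ring
  refine ⟨(1 - d3 / (d3 - d4)) • c (p1, p2) + (d3 / (d3 - d4)) • c (q1, q2), ?_, ?_⟩
  · rw [segment_eq_image]
    exact ⟨d3 / (d3 - d4), ⟨ht1, ht2⟩, rfl⟩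
  · rw [segment_eq_image]
    refine ⟨d1 / (d1 - d2), ⟨hs1, hs2⟩, ?_⟩
    have e1 : (1 - d1 / (d1 - d2)) * (r1 : ℝ) + d1 / (d1 - d2) * s1 =
        (1 - d3 / (d3 - d4)) * p1 + d3 / (d3 - d4) * q1 := by
      rw [hD]
      have h : d1 - d2 ≠ 0 := hs0
      field_simp
      rw [hd1, hd2, hd3]
      ring
    have e2 : (1 - d1 / (d1 - d2)) * (r2 : ℝ) + d1 / (d1 - d2) * s2 =
        (1 - d3 / (d3 - d4)) * p2 + d3 / (d3 - d4) * q2 := by
      rw [hD]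
      have h : d1 - d2 ≠ 0 := hs0
      field_simp
      rw [hd1, hd2, hd3]
      ring
    exact Prod.ext e1 e2

theorem side (P Q R S : ℤ × ℤ) (h : 0 < o P Q R * o P Q S) :
    ¬ (segment ℝ (c P) (c Q) ∩ segment ℝ (c R) (c S)).Nonempty := by
  obtain ⟨p1, p2⟩ := P
  obtain ⟨q1, q2⟩ := Q
  obtain ⟨r1, r2⟩ := R
  obtain ⟨s1, s2⟩ := S
  simp only [o] at h
  have h' : 0 < (((q1 : ℝ) - p1) * (r2 - p2) - (q2 - p2) * (r1 - p1)) *
      ((q1 - p1) * (s2 - p2) - (q2 - p2) * (s1 - p1)) := by exact_mod_cast h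
  rintro ⟨z, hz1, hz2⟩
  rw [segment_eq_image] at hz1 hz2
  obtain ⟨t, ⟨ht0, ht1⟩, rfl⟩ := hz1
  obtain ⟨s, ⟨hs0, hs1⟩, hz⟩ := hz2
  have e1 : (1 - s) * (r1 : ℝ) + s * s1 = (1 - t) * p1 + t * q1 := congrArg Prod.fst hz
  have e2 : (1 - s) * (r2 : ℝ) + s * s2 = (1 - t) * p2 + t * q2 := congrArg Prod.snd hz
  set d1 : ℝ := ((q1 : ℝ) - p1) * (r2 - p2) - (q2 - p2) * (r1 - p1) with hd1
  set d2 : ℝ := ((q1 : ℝ) - p1) * (s2 - p2) - (q2 - p2) * (s1 - p1) with hd2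
  have e3 : (1 - s) * d1 + s * d2 = 0 := by
    rw [hd1, hd2]
    linear_combination ((q1 : ℝ) - p1) * e2 - ((q2 : ℝ) - p2) * e1
  rcases mul_pos_iff.1 h' with ⟨hx, hy⟩ | ⟨hx, hy⟩
  · nlinarith [mul_nonneg (sub_nonneg.2 hs1) hx.le, mul_nonneg hs0 hy.le]
  · nlinarith [mul_nonneg (sub_nonneg.2 hs1) (neg_nonneg.2 hx.le), mul_nonneg hs0 (neg_nonneg.2 hy.le)]

/-- the integer test -/
def test (a b : Fin 30) : Bool :=
  if dis a b then
    decide (0 < o (sp a) (Pool.Agent.Run7.h531.LP.sq a) (sp b) * o (sp a) (Pool.Agent.Run7.h531.LP.sq a) (Pool.Agent.Run7.h531.LP.sq b)) ||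
      decide (0 < o (sp b) (Pool.Agent.Run7.h531.LP.sq b) (sp a) * o (sp b) (Pool.Agent.Run7.h531.LP.sq b) (Pool.Agent.Run7.h531.LP.sq a))
  else
    decide (o (sp a) (Pool.Agent.Run7.h531.LP.sq a) (sp b) * o (sp a) (Pool.Agent.Run7.h531.LP.sq a) (Pool.Agent.Run7.h531.LP.sq b) < 0) &&
      decide (o (sp b) (Pool.Agent.Run7.h531.LP.sq b) (sp a) * o (sp b) (Pool.Agent.Run7.h531.LP.sq b) (Pool.Agent.Run7.h531.LP.sq a) < 0)

theorem test_all : ∀ a b : Fin 30, a ≠ b → test a b = true := by decide +kernel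

theorem ne_all : ∀ a : Fin 30, sp a ≠ Pool.Agent.Run7.h531.LP.sq a := by decide +kernel

theorem t_SEG : S_SEG := by
  refine ⟨fun a => c (sp a), fun a => c (Pool.Agent.Run7.h531.LP.sq a), fun a h => ne_all a ?_, fun a b hab => ?_⟩
  · have h1 : ((sp a).1 : ℝ) = (Pool.Agent.Run7.h531.LP.sq a).1 := congrArg Prod.fst h
    have h2 : ((sp a).2 : ℝ) = (Pool.Agent.Run7.h531.LP.sq a).2 := congrArg Prod.snd h
    exact Prod.ext (by exact_mod_cast h1) (by exact_mod_cast h2)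
  · have ht := test_all a b hab
    unfold test at ht
    constructor
    · intro hadj
      have hd : dis a b = false := hadj.2
      rw [hd] at ht
      simp only [Bool.false_eq_true, if_false, Bool.and_eq_true, decide_eq_true_eq] at ht
      exact cross _ _ _ _ ht.1 ht.2
    · intro hne
      refine ⟨hab, ?_⟩
      by_contra hd
      rw [Bool.not_eq_false] at hd
      rw [hd] at ht
      simp only [if_true, Bool.or_eq_true, decide_eq_true_eq] at ht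
      rcases ht with h | h
      · exact side _ _ _ _ h hne
      · refine side _ _ _ _ h ?_
        rw [Set.inter_comm]
        exact hne

end Run7.h531.LP
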