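import Pool.Agent.Run7.h531.LP.Stm

/-! Project LP: the combinatorial lemma, with ties -/

set_option autoImplicit false

namespace Run7.h531.LP

open Pool.Agent.Run7.h531.LP

theorem P0 : ∀ a : Fin 10, adj a a = false := by decide +kernel

theorem P1 : ∀ a b c : Fin 10, adj a b = true → adj b c = true → adj a c = true → False := by
  decide +kernel

theorem P2 : ∀ a b c d : Fin 10, a ≠ b → adj a c = true → adj b c = true → adj a d = true →
    adj b d = true → c = d := by
  decide +kernel

theorem Ps : ∀ a b : Fin 10, adj a b = adj b a := by decide +kernel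

theorem P4 : ∀ a p q : Fin 10, ∃ c, adj a c = true ∧ c ≠ p ∧ c ≠ q := by decide +kernel

theorem P5 : ∀ a p : Fin 10, ∃ c d, adj a c = true ∧ adj a d = true ∧ c ≠ d ∧ c ≠ p ∧ d ≠ p := by
  decide +kernel

theorem P6 : ∀ a : Fin 10, ∃ c d e, adj a c = true ∧ adj a d = true ∧ adj a e = true ∧
    c ≠ d ∧ c ≠ e ∧ d ≠ e := by
  decide +kernel

theorem core (x : Fin 10 → ℝ) (u : Fin 10 → Bool) (F0 : ∀ a b, adj a b = true → x a ≠ x b)
    (F1 : ∀ a b c, u a = u b → x a < x b → adj a b = true → x b < x c → adj b c = true → False)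
    (F2 : ∀ a b c, u a = u b → x a < x b → adj a b = false → x b < x c → adj a c = true →
      adj b c = true)
    (F3 : ∀ a b, u a = u b → x a = x b → (∀ c, x a < x c → adj a c = true → adj b c = true) ∨
      (∀ c, x a < x c → adj b c = true → adj a c = true))
    (a a' c : Fin 10) (haa : a ≠ a') (hu : u a = u a') (hx : x a ≤ x a')
    (H1 : ∀ w, x w < x a' → w = a ∨ w = c) (H2 : c = a ∨ u c ≠ u a) : False := by
  -- a vertex of the class of `a'` has a later neighbour
  have A1 : ∀ z, x z = x a' → ∃ d, x z < x d ∧ adj z d = true := by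
    intro z hz
    obtain ⟨d, h1, h2, h3⟩ := P4 z a c
    refine ⟨d, ?_, h1⟩
    rcases lt_trichotomy (x d) (x z) with h | h | h
    · rw [hz] at h
      rcases H1 d h with h | h
      · exact absurd h h2
      · exact absurd h h3
    · exact absurd h.symm (F0 z d h1)
    · exact h
  -- two later neighbours
  have A2 : ∀ z p, x z = x a' → (∀ w, x w < x a' → adj z w = true → w = p) →
      ∃ d e, x z < x d ∧ x z < x e ∧ adj z d = true ∧ adj z e = true ∧ d ≠ e := by
    intro z p hz hp
    obtain ⟨d, e, h1, h2, h3, h4, h5⟩ := P5 z p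
    refine ⟨d, e, ?_, ?_, h1, h2, h3⟩
    · rcases lt_trichotomy (x d) (x z) with h | h | h
      · rw [hz] at h
        exact absurd (hp d h h1) h4
      · exact absurd h.symm (F0 z d h1)
      · exact h
    · rcases lt_trichotomy (x e) (x z) with h | h | h
      · rw [hz] at h
        exact absurd (hp e h h2) h5
      · exact absurd h.symm (F0 z e h2)
      · exact h
  -- two vertices of one class and of one type
  have A3 : ∀ z z', z ≠ z' → u z = u z' → x z = x z' →
      (∃ d e, x z < x d ∧ x z < x e ∧ adj z d = true ∧ adj z e = true ∧ d ≠ e) →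
      (∃ d e, x z' < x d ∧ x z' < x e ∧ adj z' d = true ∧ adj z' e = true ∧ d ≠ e) → False := by
    rintro z z' hne hu' hx' ⟨d, e, h1, h2, h3, h4, h5⟩ ⟨d', e', k1, k2, k3, k4, k5⟩
    rcases F3 z z' hu' hx' with h | h
    · exact h5 (P2 z z' d e hne h3 (h d h1 h3) h4 (h e h2 h4))
    · rw [← hx'] at k1 k2
      exact k5 (P2 z z' d' e' hne (h d' k1 k3) k3 (h e' k2 k4) k4)
  -- step 1
  have S1 : adj a a' = false := by
    cases h : adj a a'
    · rfl
    · exfalso
      have h1 : x a < x a' := lt_of_le_of_ne hx (F0 a a' h)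
      obtain ⟨d, h2, h3⟩ := A1 a' rfl
      exact F1 a a' d hu h1 h h2 h3
  have S1' : adj a' a = false := by rw [← Ps a a']; exact S1
  -- two later neighbours of `a'`
  have S3 : ∃ d e, x a' < x d ∧ x a' < x e ∧ adj a' d = true ∧ adj a' e = true ∧ d ≠ e := by
    refine A2 a' c rfl fun w hw h => ?_
    rcases H1 w hw with h1 | h1
    · rw [h1, S1'] at h
      exact absurd h Bool.false_ne_true
    · exact h1
  -- step 2
  have S2 : x a < x a' := by
    refine lt_of_le_of_ne hx fun hxe => ?_
    refine A3 a a' haa hu hxe (A2 a c hxe fun w hw h => ?_) S3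
    rcases H1 w hw with h1 | h1
    · rw [h1, P0 a] at h
      exact absurd h Bool.false_ne_true
    · exact h1
  -- step 4
  have S4 : ∀ z, x z = x a' → u z = u a' → z = a' := by
    intro z hz huz
    by_contra hne
    cases h : adj a z
    · refine A3 z a' hne huz hz (A2 z c hz fun w hw h' => ?_) S3
      rcases H1 w hw with h1 | h1
      · rw [h1, Ps z a, h] at h'
        exact absurd h' Bool.false_ne_true
      · exact h1
    · obtain ⟨d, h2, h3⟩ := A1 z hz
      exact F1 a z d (hu.trans huz.symm) (by rw [hz]; exact S2) h h2 h3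
  -- step 5
  have hb : ∀ p q r : Bool, p ≠ r → q ≠ r → p = q := by decide
  have S5 : ∀ z z', x z = x a' → x z' = x a' → u z ≠ u a' → u z' ≠ u a' → z = z' := by
    have key : ∀ z, x z = x a' → u z ≠ u a' →
        ∃ d e, x z < x d ∧ x z < x e ∧ adj z d = true ∧ adj z e = true ∧ d ≠ e := by
      intro z hz huz
      refine A2 z a hz fun w hw h' => ?_
      rcases H1 w hw with h1 | h1
      · exact h1
      · rcases H2 with h2 | h2
        · rw [h1, h2]
        · exfalso
          rw [h1] at hw h'
          obtain ⟨d, h3, h4⟩ := A1 z hz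
          refine F1 c z d (hb _ _ (u a) h2 (by rw [hu]; exact huz)) (by rw [hz]; exact hw) ?_ h3 h4
          rw [Ps c z]
          exact h'
    intro z z' hz hz' h1 h2
    by_contra hne
    exact A3 z z' hne (hb _ _ _ h1 h2) (hz.trans hz'.symm) (key z hz h1) (key z' hz' h2)
  -- the neighbours of `a`
  have T1 : ∀ w w', adj a w = true → adj a w' = true → x a' < x w → x a' < x w' → w = w' := by
    intro w w' h h' k k'
    exact P2 a a' w w' haa h (F2 a a' w hu S2 S1 k h) h' (F2 a a' w' hu S2 S1 k' h')
  have T2 : ∀ w, adj a w = true → x w = x a' → u w ≠ u a' := by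
    intro w h k hw
    have := S4 w k hw
    rw [this, S1] at h
    exact Bool.false_ne_true h
  have T3 : ∀ w w', adj a w = true → adj a w' = true → x w = x a' → x w' = x a' → w = w' := by
    intro w w' h h' k k'
    exact S5 w w' k k' (T2 w h k) (T2 w' h' k')
  have T4 : adj a c = true ∧ x c < x a' := by
    by_contra hcon
    have hno : ∀ w, adj a w = true → x w = x a' ∨ x a' < x w := by
      intro w h
      rcases lt_trichotomy (x w) (x a') with k | k | k
      · exfalso
        rcases H1 w k with h1 | h1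
        · rw [h1, P0 a] at h
          exact Bool.false_ne_true h
        · exact hcon ⟨h1 ▸ h, h1 ▸ k⟩
      · exact Or.inl k
      · exact Or.inr k
    obtain ⟨d, e, f, h1, h2, h3, h4, h5, h6⟩ := P6 a
    rcases hno d h1 with k1 | k1 <;> rcases hno e h2 with k2 | k2 <;> rcases hno f h3 with k3 | k3
    · exact h4 (T3 d e h1 h2 k1 k2)
    · exact h4 (T3 d e h1 h2 k1 k2)
    · exact h5 (T3 d f h1 h3 k1 k3)
    · exact h6 (T1 e f h2 h3 k2 k3)
    · exact h6 (T3 e f h2 h3 k2 k3)
    · exact h5 (T1 d f h1 h3 k1 k3)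
    · exact h4 (T1 d e h1 h2 k1 k2)
    · exact h4 (T1 d e h1 h2 k1 k2)
  obtain ⟨hac, hcx⟩ := T4
  have hca : c ≠ a := by
    intro h
    rw [h, P0 a] at hac
    exact Bool.false_ne_true hac
  have huc : u c ≠ u a' := by
    rcases H2 with h | h
    · exact absurd h hca
    · rw [← hu]; exact h
  have T5 : ∃ b, adj a b = true ∧ x b = x a' := by
    obtain ⟨d, e, h1, h2, h3, h4, h5⟩ := P5 a c
    have hno : ∀ w, adj a w = true → w ≠ c → x w = x a' ∨ x a' < x w := by
      intro w h hwc
      rcases lt_trichotomy (x w) (x a') with k | k | k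
      · exfalso
        rcases H1 w k with h1 | h1
        · rw [h1, P0 a] at h
          exact Bool.false_ne_true h
        · exact hwc h1
      · exact Or.inl k
      · exact Or.inr k
    rcases hno d h1 h4 with k1 | k1
    · exact ⟨d, h1, k1⟩
    · rcases hno e h2 h5 with k2 | k2
      · exact ⟨e, h2, k2⟩
      · exact absurd (T1 d e h1 h2 k1 k2) h3
  obtain ⟨b, hab, hbx⟩ := T5
  have hub := T2 b hab hbx
  have hcb : adj c b = false := by
    cases h : adj c b
    · rfl
    · exact (P1 a c b hac h hab).elim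
  have hne : c ≠ b := by
    intro h
    rw [h, hbx] at hcx
    exact lt_irrefl _ hcx
  obtain ⟨d, h1, h2, h3⟩ := P4 c a a'
  rcases lt_trichotomy (x d) (x a') with k | k | k
  · rcases H1 d k with h | h
    · exact h2 h
    · rw [h, P0 c] at h1
      exact Bool.false_ne_true h1
  · by_cases hud : u d = u a'
    · exact h3 (S4 d k hud)
    · rw [S5 d b k hbx hud hub, hcb] at h1
      exact Bool.false_ne_true h1
  · have h4 : adj b d = true :=
      F2 c b d (hb _ _ _ huc hub) (by rw [hbx]; exact hcx) hcb (by rw [hbx]; exact k) h1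
    exact h2 (P2 c b d a hne h1 h4 (by rw [Ps c a]; exact hac) (by rw [Ps b a]; exact hab))

theorem comb (x : Fin 10 → ℝ) (u : Fin 10 → Bool) (F0 : ∀ a b, adj a b = true → x a ≠ x b)
    (F1 : ∀ a b c, u a = u b → x a < x b → adj a b = true → x b < x c → adj b c = true → False)
    (F2 : ∀ a b c, u a = u b → x a < x b → adj a b = false → x b < x c → adj a c = true →
      adj b c = true)
    (F3 : ∀ a b, u a = u b → x a = x b → (∀ c, x a < x c → adj a c = true → adj b c = true) ∨
      (∀ c, x a < x c → adj b c = true → adj a c = true)) : False := by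
  have hm : ∀ i j : Fin 10, i ≤ j → x (Tuple.sort x i) ≤ x (Tuple.sort x j) :=
    fun i j h => Tuple.monotone_sort x h
  set s := Tuple.sort x with hs
  have hlt : ∀ (j : Fin 10) (w : Fin 10), x w < x (s j) → s.symm w < j := by
    intro j w h
    by_contra hcon
    have := hm j (s.symm w) (not_lt.1 hcon)
    rw [s.apply_symm_apply] at this
    exact absurd this (not_le.2 h)
  have e0 : ∀ w, s.symm w = 0 → w = s 0 := fun w h => by rw [← h, s.apply_symm_apply]
  have e1 : ∀ w, s.symm w = 1 → w = s 1 := fun w h => by rw [← h, s.apply_symm_apply]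
  have d0 : ∀ i : Fin 10, i < 1 → i = 0 := by decide
  have d1 : ∀ i : Fin 10, i < 2 → i = 0 ∨ i = 1 := by decide
  have n01 : s 0 ≠ s 1 := fun h => absurd (s.injective h) (by decide)
  have n02 : s 0 ≠ s 2 := fun h => absurd (s.injective h) (by decide)
  have n12 : s 1 ≠ s 2 := fun h => absurd (s.injective h) (by decide)
  by_cases h01 : u (s 0) = u (s 1)
  · exact core x u F0 F1 F2 F3 (s 0) (s 1) (s 0) n01 h01 (hm 0 1 (by decide))
      (fun w hw => Or.inl (e0 w (d0 _ (hlt 1 w hw)))) (Or.inl rfl)
  · by_cases h02 : u (s 0) = u (s 2)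
    · refine core x u F0 F1 F2 F3 (s 0) (s 2) (s 1) n02 h02 (hm 0 2 (by decide))
        (fun w hw => ?_) (Or.inr fun h => h01 h.symm)
      rcases d1 _ (hlt 2 w hw) with h | h
      · exact Or.inl (e0 w h)
      · exact Or.inr (e1 w h)
    · have h12 : u (s 1) = u (s 2) := by
        have hb : ∀ p q r : Bool, p ≠ q → p ≠ r → q = r := by decide
        exact hb _ _ _ h01 h02
      refine core x u F0 F1 F2 F3 (s 1) (s 2) (s 0) n12 h12 (hm 1 2 (by decide))
        (fun w hw => ?_) (Or.inr fun h => h01 h)
      rcases d1 _ (hlt 2 w hw) with h | h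
      · exact Or.inr (e0 w h)
      · exact Or.inl (e1 w h)

end Run7.h531.LP
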