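import Pool.Agent.Run7.h531.LP.Core

/-! Project LP: one copy, all boxes meeting (the two geometric lemmas are helper109's) -/

set_option autoImplicit false

namespace Run7.h531.LP

open Pool.Agent.Run7.h531.LP

theorem mem_bent (x y r t u v : ℝ) : (u, v) ∈ bent x y r t ↔
    (u = x ∧ v ∈ Set.uIcc y t) ∨ (v = y ∧ u ∈ Set.uIcc x r) := by
  unfold bent
  rw [Set.mem_union, ← Prod.image_mk_segment_right, ← Prod.image_mk_segment_left, segment_eq_uIcc,
    segment_eq_uIcc]
  simp only [Set.mem_image, Prod.mk.injEq]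
  constructor
  · rintro (⟨w, hw, h1, h2⟩ | ⟨w, hw, h1, h2⟩)
    · exact Or.inl ⟨h1.symm, h2 ▸ hw⟩
    · exact Or.inr ⟨h2.symm, h1 ▸ hw⟩
  · rintro (⟨h1, h2⟩ | ⟨h1, h2⟩)
    · exact Or.inl ⟨v, h2, h1.symm, rfl⟩
    · exact Or.inr ⟨u, h2, rfl, h1.symm⟩

theorem meet_iff (xa ya ra ta xb yb rb tb : ℝ) (hab : xa < xb) (hb : xb < rb) (hr : xb ≤ ra) :
    (bent xa ya ra ta ∩ bent xb yb rb tb).Nonempty ↔ min yb tb ≤ ya ∧ ya ≤ max yb tb := by
  have ha : xa < ra := lt_of_lt_of_le hab hr
  constructor
  · rintro ⟨⟨u, v⟩, h1, h2⟩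
    rw [mem_bent] at h1 h2
    have hu : xb ≤ u := by
      rcases h2 with ⟨h, -⟩ | ⟨-, h⟩
      · exact h.ge
      · rw [Set.uIcc_of_le hb.le] at h; exact h.1
    have hv : v ∈ Set.uIcc yb tb := by
      rcases h2 with ⟨-, h⟩ | ⟨h, -⟩
      · exact h
      · rw [h]; exact Set.left_mem_uIcc
    have hva : v = ya := by
      rcases h1 with ⟨h, -⟩ | ⟨h, -⟩
      · exfalso; linarith
      · exact h
    rw [hva] at hv
    exact hv
  · intro h
    refine ⟨(xb, ya), ?_, ?_⟩
    · rw [mem_bent]
      exact Or.inr ⟨rfl, by rw [Set.uIcc_of_le ha.le]; exact ⟨hab.le, hr⟩⟩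
    · rw [mem_bent]
      exact Or.inl ⟨rfl, h⟩

theorem meet_tie (xa ya ra ta yb rb tb : ℝ) (h1 : min ya ta ≤ max yb tb)
    (h2 : min yb tb ≤ max ya ta) : (bent xa ya ra ta ∩ bent xa yb rb tb).Nonempty := by
  refine ⟨(xa, max (min ya ta) (min yb tb)), ?_, ?_⟩
  · rw [mem_bent]
    exact Or.inl ⟨rfl, ⟨le_max_left _ _, max_le (min_le_left _ _ |>.trans (le_max_left _ _)) h2⟩⟩
  · rw [mem_bent]
    exact Or.inl ⟨rfl, ⟨le_max_right _ _, max_le h1 (min_le_left _ _ |>.trans (le_max_left _ _))⟩⟩

theorem t_ORD : S_ORD := by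
  intro x y r t h1 h2 h3 hadj
  have hM : ∀ a b, x a < x b → (adj a b = false ↔
      (min (y b) (t b) ≤ y a ∧ y a ≤ max (y b) (t b))) := by
    intro a b hab
    rw [hadj a b (fun h => by rw [h] at hab; exact lt_irrefl _ hab)]
    exact meet_iff _ _ _ _ _ _ _ _ hab (h1 b).1 (h2 b a)
  have hL : ∀ a b, x a < x b → y a < t a → (adj a b = true ↔ y a < min (y b) (t b)) := by
    intro a b hab ha
    have h4 := hM a b hab
    have h5 : y a ≤ max (y b) (t b) := by
      have := h3 a b
      rwa [min_eq_left ha.le] at this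
    constructor
    · intro h
      by_contra hcon
      have := h4.2 ⟨not_lt.1 hcon, h5⟩
      rw [this] at h
      exact Bool.false_ne_true h
    · intro h
      cases hc : adj a b
      · exact absurd (h4.1 hc).1 (not_le.2 h)
      · rfl
  have hG : ∀ a b, x a < x b → ¬ y a < t a → (adj a b = true ↔ max (y b) (t b) < y a) := by
    intro a b hab ha
    have ha' : t a ≤ y a := not_lt.1 ha
    have h4 := hM a b hab
    have h5 : min (y b) (t b) ≤ y a := by
      have := h3 b a
      rwa [max_eq_left ha'] at this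
    constructor
    · intro h
      by_contra hcon
      have := h4.2 ⟨h5, not_lt.1 hcon⟩
      rw [this] at h
      exact Bool.false_ne_true h
    · intro h
      cases hc : adj a b
      · exact absurd (h4.1 hc).2 (not_le.2 h)
      · rfl
  have hty : ∀ a b, decide (y a < t a) = decide (y b < t b) → (y a < t a ↔ y b < t b) := by
    intro a b h
    constructor
    · intro h'
      have : decide (y b < t b) = true := by rw [← h]; exact decide_eq_true h'
      exact of_decide_eq_true this
    · intro h'
      have : decide (y a < t a) = true := by rw [h]; exact decide_eq_true h'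
      exact of_decide_eq_true this
  refine comb x (fun a => decide (y a < t a)) ?_ ?_ ?_ ?_
  · intro a b hab hx
    have hne : a ≠ b := by
      intro h
      rw [h, P0 b] at hab
      exact Bool.false_ne_true hab
    have : adj a b = false := by
      rw [hadj a b hne, hx]
      exact meet_tie _ _ _ _ _ _ _ (h3 a b) (h3 b a)
    rw [this] at hab
    exact Bool.false_ne_true hab
  · intro a b c hu hab e hbc f
    have hu' := hty a b hu
    have hac := hab.trans hbc
    by_cases hta : y a < t a
    · have htb := hu'.1 hta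
      have e1 := (hL a b hab hta).1 e
      have e2 := (hL b c hbc htb).1 f
      rw [min_eq_left htb.le] at e1
      exact P1 a b c e f ((hL a c hac hta).2 (e1.trans e2))
    · have htb : ¬ y b < t b := fun h => hta (hu'.2 h)
      have e1 := (hG a b hab hta).1 e
      have e2 := (hG b c hbc htb).1 f
      rw [max_eq_left (not_lt.1 htb)] at e1
      exact P1 a b c e f ((hG a c hac hta).2 (e2.trans e1))
  · intro a b c hu hab e hbc f
    have hu' := hty a b hu
    have hac := hab.trans hbc
    have e1 := (hM a b hab).1 e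
    by_cases hta : y a < t a
    · have htb := hu'.1 hta
      rw [min_eq_left htb.le] at e1
      exact (hL b c hbc htb).2 (lt_of_le_of_lt e1.1 ((hL a c hac hta).1 f))
    · have htb : ¬ y b < t b := fun h => hta (hu'.2 h)
      rw [max_eq_left (not_lt.1 htb)] at e1
      exact (hG b c hbc htb).2 (lt_of_lt_of_le ((hG a c hac hta).1 f) e1.2)
  · intro a b hu hx
    have hu' := hty a b hu
    by_cases hta : y a < t a
    · have htb := hu'.1 hta
      rcases le_total (y b) (y a) with h | h
      · refine Or.inl fun c hc f => ?_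
        exact (hL b c (hx ▸ hc) htb).2 (lt_of_le_of_lt h ((hL a c hc hta).1 f))
      · refine Or.inr fun c hc f => ?_
        exact (hL a c hc hta).2 (lt_of_le_of_lt h ((hL b c (hx ▸ hc) htb).1 f))
    · have htb : ¬ y b < t b := fun h => hta (hu'.2 h)
      rcases le_total (y a) (y b) with h | h
      · refine Or.inl fun c hc f => ?_
        exact (hG b c (hx ▸ hc) htb).2 (lt_of_lt_of_le ((hG a c hc hta).1 f) h)
      · refine Or.inr fun c hc f => ?_
        exact (hG a c hc hta).2 (lt_of_lt_of_le ((hG b c (hx ▸ hc) htb).1 f) h)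

end Run7.h531.LP
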