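import Mathlib

/-!
# Project LP (MP_34d506_co): a segment graph and one-bend graph without an L-Gamma representation

`H` is the complement of three disjoint Petersen graphs.
-/

set_option autoImplicit false

namespace Pool.Agent.Run7.h531.LP

/-- segment graphs -/
def IsSEG {V : Type} (H : SimpleGraph V) : Prop :=
  ∃ p q : V → ℝ × ℝ, (∀ a, p a ≠ q a) ∧ ∀ a b, a ≠ b →
    (H.Adj a b ↔ (segment ℝ (p a) (q a) ∩ segment ℝ (p b) (q b)).Nonempty)

/-- The union of the vertical segment from `(x, y)` to `(x, t)` and the horizontal segment from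
`(x, y)` to `(r, y)`. -/
def bent (x y r t : ℝ) : Set (ℝ × ℝ) := segment ℝ (x, y) (x, t) ∪ segment ℝ (x, y) (r, y)

/-- one-bend VPG graphs -/
def IsB1VPG {V : Type} (H : SimpleGraph V) : Prop :=
  ∃ x y r t : V → ℤ, ∀ a b, a ≠ b →
    (H.Adj a b ↔ (bent (x a) (y a) (r a) (t a) ∩ bent (x b) (y b) (r b) (t b)).Nonempty)

/-- graphs of L-shapes (`y < t`) and Gamma-shapes (`t < y`) -/
def IsLGamma {V : Type} (H : SimpleGraph V) : Prop :=
  ∃ x y r t : V → ℝ, (∀ a, x a < r a ∧ y a ≠ t a) ∧ ∀ a b, a ≠ b →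
    (H.Adj a b ↔ (bent (x a) (y a) (r a) (t a) ∩ bent (x b) (y b) (r b) (t b)).Nonempty)

/-- the Petersen graph: outer cycle `0..4`, inner pentagram `5..9` -/
def adj (a b : Fin 10) : Bool :=
  (Nat.blt a.val 5 && Nat.blt b.val 5 &&
    ((a.val + 1) % 5 == b.val || (b.val + 1) % 5 == a.val)) ||
  (Nat.ble 5 a.val && Nat.ble 5 b.val &&
    ((a.val + 2) % 5 == b.val % 5 || (b.val + 2) % 5 == a.val % 5)) ||
  (a.val + 5 == b.val || b.val + 5 == a.val)

/-- three Petersen graphs -/
def dis (a b : Fin 30) : Bool :=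
  a.val / 10 == b.val / 10 &&
    adj ⟨a.val % 10, Nat.mod_lt _ (by decide)⟩ ⟨b.val % 10, Nat.mod_lt _ (by decide)⟩

/-- the complement of three disjoint Petersen graphs -/
def H : SimpleGraph (Fin 30) where
  Adj a b := a ≠ b ∧ dis a b = false
  symm := ⟨by decide +kernel⟩
  loopless := ⟨fun _ h => h.1 rfl⟩

/-- first ends of the segments -/
def sp : Fin 30 → ℤ × ℤ := ![(-2000, -11), (-29000, 14), (-49000, -16), (-1000, 3), (-20000, 20),
  (-2000, -35), (-1000, -45), (-24000, 17), (-46000, -19), (-3000, 55), (-989, -2011), (-14514,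
  -28986), (-24484, -49016), (-503, -997), (-10020, -19980), (-965, -2035), (-455, -1045),
  (-12017, -23983), (-22981, -46019), (-1555, -2945), (1011, -1989), (14486, -29014), (24516,
  -48984), (497, -1003), (9980, -20020), (1035, -1965), (545, -955), (11983, -24017), (23019,
  -45981), (1445, -3055)]

/-- second ends of the segments -/
def sq : Fin 30 → ℤ × ℤ := ![(10000, 24), (64000, 42), (22000, 11), (28000, 37), (15000, -53),
  (26000, 50), (5000, 19), (8000, 8), (18000, 30), (21000, -24), (4976, 10024), (31958, 64042),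
  (10989, 22011), (13963, 28037), (7553, 14947), (12950, 26050), (2481, 5019), (3992, 8008),
  (8970, 18030), (10524, 20976), (-5024, 9976), (-32042, 63958), (-11011, 21989), (-14037, 27963),
  (-7447, 15053), (-13050, 25950), (-2519, 4981), (-4008, 7992), (-9030, 17970), (-10476, 21024)]

/-- corners of the one-bend paths -/
def bx : Fin 30 → ℤ := ![-26, -25, 35, -27, -31, 26, 31, -35, 25, 27, -14, -13, 23, -15, -19, 14,
  19, -23, 13, 15, -2, -1, 11, -3, -7, 2, 7, -11, 1, 3]

/-- corners of the one-bend paths -/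
def bv : Fin 30 → ℤ := ![10, 2, 3, -2, -10, -7, 8, -1, 7, 4, 22, 14, 15, -14, -22, -19, 20, -13,
  19, 16, 34, 26, 27, -26, -34, -31, 32, -25, 31, 28]

/-- ends of the horizontal arms -/
def bh : Fin 30 → ℤ := ![29, 27, -32, 32, 34, -31, -36, 25, -31, -26, 17, 15, -20, 20, 22, -19,
  -24, 13, -19, -14, 5, 3, -8, 8, 10, -7, -12, 1, -7, -2]

/-- ends of the vertical arms -/
def bt : Fin 30 → ℤ := ![-3, -10, -11, 2, 12, 8, -3, 8, -1, -2, -15, -22, -23, 14, 24, 20, -15,
  20, -13, -14, -27, -34, -35, 26, 36, 32, -27, 32, -25, -26]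

/-- **SEG**: `H` is a segment graph (`sp`, `sq`) -/
def S_SEG : Prop := IsSEG H

/-- **B1**: `H` is a one-bend VPG graph (`bx`, `bv`, `bh`, `bt`) -/
def S_B1 : Prop := IsB1VPG H

/-- **ORD**: one copy, all boxes meeting; equal abscissas allowed -/
def S_ORD : Prop := ∀ x y r t : Fin 10 → ℝ, (∀ a, x a < r a ∧ y a ≠ t a) → (∀ a b, x a ≤ r b) →
  (∀ a b, min (y a) (t a) ≤ max (y b) (t b)) →
  ¬ ∀ a b, a ≠ b → (adj a b = false ↔
    (bent (x a) (y a) (r a) (t a) ∩ bent (x b) (y b) (r b) (t b)).Nonempty)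

/-- **NL** (from ORD), as for three cubes -/
def S_NL : Prop := ¬ IsLGamma H

end Pool.Agent.Run7.h531.LP
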